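import Mathlib

/-!
# The group `H²ᵈ(X_et, ℤ(d))` of a regular scheme `X` of dimension `d`, proper over `ℤ`: the setting

The schemes are Mathlib's schemes. Theorems about schemes themselves are closed propositions, listed in
`Geometry`. The groups `T.Top X = H²ᵈ(X_et, ℤ(d))`, `d = dim X`, and four étale cohomology groups with
coefficients in `ℤ_p` or `ℤ/p` are data; their known properties are listed in `Theory.Standard`. These properties
are published theorems or direct consequences of them; the sources are given with them.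
-/

set_option autoImplicit false

open CategoryTheory CategoryTheory.Limits AlgebraicGeometry Opposite

namespace Pool.Agent.Helper83.TD

universe v

/-! ## Schemes -/

/-- `X` is a regular, integral (equivalently: regular and connected) scheme, proper over `Spec ℤ` (the final
object) and of Krull dimension `d`: the schemes of Q1 -/
structure Arithmetic (X : Scheme.{0}) (d : ℕ) : Prop where
  integral : IsIntegral X
  regular : ∀ x : X, IsRegularLocalRing (X.presheaf.stalk x)
  proper : IsProper (terminal.from X)
  dim : topologicalKrullDim X = d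

/-- `X` is a scheme over a prime field of positive characteristic (a scheme of Q1 is then a connected smooth
proper scheme over a finite field; otherwise it is flat over `ℤ`) -/
def Positive (X : Scheme.{0}) : Prop := ∃ p : ℕ, p.Prime ∧ Nonempty (X ⟶ Spec (.of (ZMod p)))

/-- `X` is one of the schemes of Q1 which are flat over `ℤ`, and its dimension is `d` -/
structure Horizontal (X : Scheme.{0}) (d : ℕ) : Prop where
  arithmetic : Arithmetic X d
  flat : ¬ Positive X

/-- the spectra of the rings of integers of number fields -/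
abbrev Curve (E : Scheme.{0}) : Prop := Horizontal E 1

/-- the regular connected surfaces which are proper and flat over `ℤ` -/
abbrev Surface (S : Scheme.{0}) : Prop := Horizontal S 2

/-- the projective space of dimension `N` over the ring of integers of the field `L` -/
noncomputable def space (N : ℕ) (L : Type) [Field L] : Scheme.{0} :=
  letI := MvPolynomial.gradedAlgebra (σ := Fin (N + 1)) (R := NumberField.RingOfIntegers L)
  Proj (MvPolynomial.homogeneousSubmodule (Fin (N + 1)) (NumberField.RingOfIntegers L))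

/-- `W` is a nonempty open subscheme of a projective space over the ring of integers of a number field, and
the number `p` is invertible on `W` -/
def Rational (p : ℕ) (W : Scheme.{0}) : Prop :=
  Nonempty W ∧ IsUnit (p : Γ(W, ⊤)) ∧ ∃ (N : ℕ) (L : Type) (_ : Field L) (_ : NumberField L)
    (i : W ⟶ space N L), IsOpenImmersion i

/-- `g : V ⟶ W` is an elementary fibration (Artin): `V` is the complement in `C` of `D`, where `h : C ⟶ W` is
proper and smooth with geometrically connected fibres of dimension one, and where the closed subscheme `D`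
is finite, étale and surjective over `W` -/
def Elementary {V W : Scheme.{0}} (g : V ⟶ W) : Prop :=
  ∃ (C D : Scheme.{0}) (a : V ⟶ C) (b : D ⟶ C) (h : C ⟶ W), a ≫ h = g ∧ IsOpenImmersion a ∧
    IsClosedImmersion b ∧ IsCompl (Set.range a) (Set.range b) ∧ IsProper h ∧
    SmoothOfRelativeDimension 1 h ∧ GeometricallyConnected h ∧ IsFinite (b ≫ h) ∧ Etale (b ≫ h) ∧
    Surjective (b ≫ h)

/-- `V` is a nonempty open subscheme of `X` with an elementary fibration `g` over an open subscheme `W` of a
projective space; `f : Y ⟶ X`, where `Y` is regular, integral, proper and flat over `ℤ` of dimension `e`, and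
`C` is a scheme over `Y` and over `V` (compatibly over `X`) which is finite, flat and surjective over `W` -/
structure IsFibration (p : ℕ) {X V W Y C : Scheme.{0}} (v : V ⟶ X) (g : V ⟶ W) (f : Y ⟶ X) (a : C ⟶ Y)
    (q : C ⟶ V) (e : ℕ) : Prop where
  nonempty : Nonempty V
  open_immersion : IsOpenImmersion v
  elementary : Elementary g
  rational : Rational p W
  horizontal : Horizontal Y e
  comm : a ≫ f = q ≫ v
  finite : IsFinite (q ≫ g)
  flat : Flat (q ≫ g)
  surjective : Surjective (q ≫ g)

/-- Theorems about schemes (closed propositions). -/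
structure Geometry : Prop where
  /-- (Artin: elementary fibrations; de Jong: alterations.) A general linear projection of the generic fibre
  of `X` is a fibration in curves; `Y` is an alteration of the closure of a closed point of its generic fibre. -/
  fibration : ∀ {X : Scheme.{0}} {d : ℕ} (p : ℕ), p.Prime → 2 ≤ d → Horizontal X (d + 1) →
    ∃ (V W Y C : Scheme.{0}) (v : V ⟶ X) (g : V ⟶ W) (f : Y ⟶ X) (a : C ⟶ Y) (q : C ⟶ V),
      IsFibration p v g f a q d
  /-- (Nagata: compactifications; Lipman: resolution of surfaces.) The base change of an elementary fibration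
  to a nonempty open subscheme `O` of the spectrum of the ring of integers of a number field is a regular
  integral scheme of dimension two, so a morphism from it to a scheme `X` which is proper over `ℤ` extends to a
  regular proper model. -/
  surface : ∀ {X V W E O : Scheme.{0}} {d : ℕ} (v : V ⟶ X) (g : V ⟶ W) (j : O ⟶ E) (t : O ⟶ W),
    Horizontal X d → Elementary g → Curve E → IsOpenImmersion j → Nonempty O →
    ∃ (S : Scheme.{0}) (f : S ⟶ X) (u : pullback g t ⟶ S), Surface S ∧ u ≫ f = pullback.fst g t ≫ v
  /-- the generic fibre of `X` has closed points -/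
  curve : ∀ {X : Scheme.{0}} {d : ℕ}, Horizontal X d → ∃ (E : Scheme.{0}) (_ : E ⟶ X), Curve E
  /-- (Chow, Bertini, Lipman.) Let `dim X ≥ 3`. Two closed points of the generic fibre of `X` are on one
  geometrically integral curve (over the field of constants `L` of `X`). It has a regular proper model `S`, so
  the ring of global functions of `S` is the one of `X`. The points lift to `S` after a finite extension of their
  residue fields. -/
  joint : ∀ {X E F : Scheme.{0}} {d : ℕ} (a : E ⟶ X) (b : F ⟶ X), 3 ≤ d → Horizontal X d → Curve E →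
    Curve F → ∃ (S E' F' : Scheme.{0}) (f : S ⟶ X) (a' : E' ⟶ S) (b' : F' ⟶ S) (α : E' ⟶ E) (β : F' ⟶ F),
      Surface S ∧ Curve E' ∧ Curve F' ∧ a' ≫ f = α ≫ a ∧ b' ≫ f = β ≫ b ∧ IsIso f.appTop

/-! ## Cohomology -/

/-- the value of a homomorphism of `ℤ_p`-modules -/
noncomputable abbrev ev {p : ℕ} [Fact p.Prime] {A B : ModuleCat.{v} ℤ_[p]} (f : A ⟶ B) (x : A) : B := f.hom x

/-- the sequence `A ⟶ B ⟶ C` is exact at `B` -/
abbrev IsExact {p : ℕ} [Fact p.Prime] {A B C : ModuleCat.{v} ℤ_[p]} (f : A ⟶ B) (g : B ⟶ C) : Prop :=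
  ∀ b : B, ev g b = 0 ↔ ∃ a : A, ev f a = b

/-- the homomorphism `f` is injective -/
abbrev IsInjective {p : ℕ} [Fact p.Prime] {A B : ModuleCat.{v} ℤ_[p]} (f : A ⟶ B) : Prop :=
  Function.Injective (ev f)

/-- `x` is a torsion element -/
abbrev Tors {p : ℕ} [Fact p.Prime] {A : ModuleCat.{v} ℤ_[p]} (x : A) : Prop := IsOfFinAddOrder x

/-- the contravariant functors from the schemes to the `ℤ_p`-modules -/
abbrev Psh (p : ℕ) [Fact p.Prime] := Scheme.{0}ᵒᵖ ⥤ ModuleCat.{v} ℤ_[p]

/-- the value `F(X)` -/
noncomputable abbrev Psh.at {p : ℕ} [Fact p.Prime] (F : Psh.{v} p) (X : Scheme.{0}) : ModuleCat.{v} ℤ_[p] :=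
  F.obj (op X)

/-- the pull-back `F(Y) ⟶ F(X)` along a morphism `f : X ⟶ Y` -/
noncomputable abbrev Psh.pull {p : ℕ} [Fact p.Prime] (F : Psh.{v} p) {X Y : Scheme.{0}} (f : X ⟶ Y) :
    F.at Y ⟶ F.at X := F.map f.op

/-- the map `F(X) ⟶ G(X)` of a natural transformation -/
noncomputable abbrev Psh.map {p : ℕ} [Fact p.Prime] {F G : Psh.{v} p} (η : F ⟶ G) (X : Scheme.{0}) :
    F.at X ⟶ G.at X := NatTrans.app η (op X)

/-- Data: the groups `Top X = H²ᵈ(X_et, ℤ(d))` of the regular schemes `X`, proper over `ℤ`, `d = dim X`, with the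
push-forward, and, for each prime number `p`, the following functors; `X_p` is the fibre of `X` over `p`.
The cohomology with the coefficients `ℤ_p` is the continuous étale cohomology. -/
structure Theory where
  Top : Scheme.{0} → Type v
  [group : ∀ X, AddCommGroup (Top X)]
  push : ∀ {X Y : Scheme.{0}}, (X ⟶ Y) → Top X →+ Top Y
  /-- `H X = H²(X_et, ℤ_p)` -/
  H : ∀ (p : ℕ) [Fact p.Prime], Psh.{v} p
  /-- `K X = H¹(X[1/p]_et, ℤ_p)`, where `X[1/p] = X ∖ X_p` -/
  K : ∀ (p : ℕ) [Fact p.Prime], Psh.{v} p
  /-- `L X = H²(X_et, ℤ_p)` with supports in `X_p` -/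
  L : ∀ (p : ℕ) [Fact p.Prime], Psh.{v} p
  /-- `L1 X = H²(X_et, ℤ/p)` with supports in `X_p` -/
  L1 : ∀ (p : ℕ) [Fact p.Prime], Psh.{v} p
  /-- the connecting homomorphism -/
  δ : ∀ (p : ℕ) [Fact p.Prime], K p ⟶ L p
  /-- the map which forgets the supports -/
  ι : ∀ (p : ℕ) [Fact p.Prime], L p ⟶ H p
  /-- the reduction modulo `p` -/
  red : ∀ (p : ℕ) [Fact p.Prime], L p ⟶ L1 p
  /-- `Rel g = H²(W_et, cone(ℤ_p ⟶ Rg_* ℤ_p))`, for `g : V ⟶ W` -/
  Rel : ∀ (p : ℕ) [Fact p.Prime] {V W : Scheme.{0}}, (V ⟶ W) → ModuleCat.{v} ℤ_[p]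
  /-- the map `H²(V_et, ℤ_p) = H²(W_et, Rg_* ℤ_p) ⟶ Rel g` -/
  edge : ∀ (p : ℕ) [Fact p.Prime] {V W : Scheme.{0}} (g : V ⟶ W), (H p).at V ⟶ Rel p g
  /-- the base change of `g` along `t : O ⟶ W` -/
  base : ∀ (p : ℕ) [Fact p.Prime] {V W O : Scheme.{0}} (g : V ⟶ W) (t : O ⟶ W),
    Rel p g ⟶ Rel p (pullback.snd g t)

attribute [instance] Theory.group

variable (T : Theory.{v})

/-! ### Known properties of the étale cohomology groups with the coefficients `ℤ_p` -/

section

variable (p : ℕ) [Fact p.Prime]

/-- the exact sequence `H¹(X[1/p], ℤ_p) → H²_{X_p}(X, ℤ_p) → H²(X, ℤ_p)` of the cohomology with supports in `X_p` (it is used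
that the groups with coefficients `ℤ/pⁿ` are finite) -/
def Theory.Supports : Prop :=
  ∀ {X : Scheme.{0}} {d : ℕ}, Horizontal X d → IsExact (Psh.map (T.δ p) X) (Psh.map (T.ι p) X)

/-- (Gabber: absolute purity.) An element of `H²(X_et, ℤ_p)` which is zero on a nonempty open subscheme comes
from `H²` with supports in `X_p`: the group `H²` of `X[1/p]` with supports in a closed subset `Z ≠ X[1/p]` is
contained in the direct sum of the groups `H⁰(D, ℤ_p(-1)) = 0`, where `D` is an open subset of an irreducible
component of `Z` of codimension one in `X`. -/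
def Theory.Purity : Prop :=
  ∀ {X V : Scheme.{0}} {d : ℕ} (v : V ⟶ X), Horizontal X d → IsOpenImmersion v → Nonempty V →
    ∀ h : (T.H p).at X, ev ((T.H p).pull v) h = 0 → ∃ s, ev (Psh.map (T.ι p) X) s = h

/-- the trace of a finite flat morphism -/
def Theory.Transfer : Prop :=
  ∀ {C W : Scheme.{0}} (q : C ⟶ W), Rational p W → IsFinite q → Flat q → Surjective q →
    ∀ w : (T.H p).at W, Tors (ev ((T.H p).pull q) w) → Tors w

/-- the long exact sequence of the cone -/
def Theory.Relative : Prop :=
  ∀ {V W : Scheme.{0}} (g : V ⟶ W), IsExact ((T.H p).pull g) (T.edge p g)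

/-- functoriality of the cone -/
def Theory.BaseChange : Prop :=
  ∀ {V W O : Scheme.{0}} (g : V ⟶ W) (t : O ⟶ W),
    T.edge p g ≫ T.base p g t = (T.H p).pull (pullback.fst g t) ≫ T.edge p (pullback.snd g t)

/-- (Hilbert's irreducibility theorem for `ℤ_p`-sheaves: Serre, Terasoma.) Let `g` be an elementary fibration
over `W`. Then `cone(ℤ_p ⟶ Rg_* ℤ_p)` is `M[-1]` for the smooth `ℤ_p`-sheaf `M = R¹g_* ℤ_p`, which is compatible with
base change, so `Rel g = H¹(W, M)`. Modulo torsion its elements are extensions of `ℚ_p` by `M ⊗ ℚ_p`. There are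
points `t : O ⟶ W`, where `O` is an open subscheme of the spectrum of a ring of integers, such that the images
of the fundamental groups of `O` and `W` in the automorphism group of the extension are the same. -/
def Theory.Hilbert : Prop :=
  ∀ {V W : Scheme.{0}} (g : V ⟶ W), Elementary g → Rational p W → ∀ c : T.Rel p g,
    (∀ (E O : Scheme.{0}) (j : O ⟶ E) (t : O ⟶ W), Curve E → IsOpenImmersion j → Nonempty O →
      Tors (ev (T.base p g t) c)) → Tors c

/-- `H¹(E_et, ℤ_p) = Hom(Cl(E), ℤ_p) = 0` (finiteness of the class group), so `δ` is injective -/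
def Theory.ClassNumber : Prop :=
  ∀ {E : Scheme.{0}}, Curve E → IsInjective (Psh.map (T.δ p) E)

/-- (Katz-Lang.) The spectrum `B` of the ring of global functions of `X` is the spectrum of the ring of
integers of a number field, and `H¹(B[1/p], ℤ_p) = H¹(X[1/p], ℤ_p)`. -/
def Theory.KatzLang : Prop :=
  ∀ {X : Scheme.{0}} {d : ℕ}, Horizontal X d →
    Curve (Spec Γ(X, ⊤)) ∧ IsIso ((T.K p).pull X.toSpecΓ)

/-- the trace of a finite flat morphism -/
def Theory.TransferCurve : Prop :=
  ∀ {E E' : Scheme.{0}} (u : E' ⟶ E), Curve E → Curve E' →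
    IsInjective ((T.K p).pull u) ∧ IsInjective ((T.L p).pull u)

/-- finiteness of the étale cohomology groups with coefficients `ℤ/pⁿ` -/
def Theory.Finiteness : Prop :=
  ∀ {X : Scheme.{0}} {d : ℕ}, Horizontal X d →
    Module.Finite ℤ_[p] ((T.H p).at X) ∧ Module.Finite ℤ_[p] ((T.L p).at X)

/-- the exact sequence `L X → L X → L1 X` of the multiplication by `p`; the first map is injective, since
`H¹(X_et, ℤ/p)` with supports in `X_p` is zero for the normal scheme `X` -/
def Theory.Reduction : Prop :=
  ∀ {X : Scheme.{0}} {d : ℕ}, Horizontal X d →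
    (∀ s : (T.L p).at X, p • s = 0 → s = 0) ∧ ∀ s : (T.L p).at X, ev (Psh.map (T.red p) X) s = 0 → ∃ t, p • t = s

/-- (Zariski-Nagata; Kerz-Schmidt, On different notions of tameness in arithmetic geometry, Lemma 2.4.) The
group `L1 X` is `H⁰(X_p, i^*R¹j_* ℤ/p)`, where `j : X[1/p] ⟶ X ⟵ X_p : i`. If `s ≠ 0`, then `s` is given by a cyclic
covering of degree `p` of `X'[1/p]`, `X'` étale over `X`, which is ramified over `X'`; it is ramified along a
prime divisor, and there is a curve on `X'` such that its restriction to the curve is ramified. -/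
def Theory.Ramification : Prop :=
  ∀ {X : Scheme.{0}} {d : ℕ}, Horizontal X d → ∀ s : (T.L1 p).at X, s ≠ 0 →
    ∃ (E : Scheme.{0}) (e : E ⟶ X), Curve E ∧ ev ((T.L1 p).pull e) s ≠ 0

/-- The known properties of the étale cohomology groups. -/
structure Theory.Cohomology : Prop where
  supports : T.Supports p
  purity : T.Purity p
  transfer : T.Transfer p
  relative : T.Relative p
  base_change : T.BaseChange p
  hilbert : T.Hilbert p
  class_number : T.ClassNumber p
  katz_lang : T.KatzLang p
  transfer_curve : T.TransferCurve p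
  finite : T.Finiteness p
  reduction : T.Reduction p
  ramification : T.Ramification p

end

/-- (Geisser's duality.) The group `H²ᵈ⁻¹(X_et, ℚ_p/ℤ_p(d))`, which has the `p`-primary part of `Top X` as a quotient,
is the Pontryagin dual of `H²(X_et, ℤ_p)` up to finite groups which come from the real points, and the
push-forward is the dual of the pull-back. So if the `S k ⟶ X` detect the elements of `H²(X_et, ℤ_p)` modulo
torsion, then the `p`-primary part of `Top X` is generated by the images of the groups of the `S k`, up to a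
finite group. -/
def Theory.Duality : Prop :=
  ∀ {X : Scheme.{0}} {d n : ℕ} (p : ℕ) [Fact p.Prime] (S : Fin n → Scheme.{0}) (f : ∀ k, S k ⟶ X),
    Horizontal X d → (∀ k, Surface (S k)) →
    (∀ h : (T.H p).at X, (∀ k, Tors (ev ((T.H p).pull (f k)) h)) → Tors h) →
    ∃ N : ℕ, 0 < N ∧ ∀ x : T.Top X, (∃ r : ℕ, p ^ r • x = 0) →
      ∃ y : ∀ k, T.Top (S k), N • x = ∑ k, T.push (f k) (y k)

/-- (Class field theory.) `Top X / N` is contained in `H²ᵈ(X_et, ℤ/N(d))`, which is the dual of `H¹(X_et, ℤ/N)` up to
groups of bounded order which come from the real points (Geisser's duality), and the abelian fundamental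
group of `X` is finite (Katz-Lang). So the order of `Top X / N`, the index of the subgroup of the multiples of
`N`, is bounded. -/
def Theory.Bounded : Prop :=
  ∀ {X : Scheme.{0}} {d : ℕ}, Horizontal X d → ∃ B : ℕ, ∀ N : ℕ, 0 < N →
    (nsmulAddMonoidHom N : T.Top X →+ T.Top X).range.index ≠ 0 ∧
      (nsmulAddMonoidHom N : T.Top X →+ T.Top X).range.index ≤ B

/-- The known properties of the groups which are used. -/
structure Theory.Standard : Prop where
  cohomology : ∀ (p : ℕ) [Fact p.Prime], T.Cohomology p
  duality : T.Duality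
  bounded : T.Bounded
  /-- the case `d = 2`: `H⁴(S_et, ℤ(2))` is finite (Kato 1986; Bloch: `CH_0(S)` is finite) -/
  surface : ∀ {S : Scheme.{0}}, Surface S → Finite (T.Top S)
  /-- the group is `CH_0(X)` up to torsion, and `CH_0(X)` is finite (Bloch; Kato, Saito) -/
  torsion : ∀ {X : Scheme.{0}} {d : ℕ}, Horizontal X d → ∀ x : T.Top X, IsOfFinAddOrder x
  /-- finiteness of `H²ᵈ⁻¹(X_et, ℤ/N(d))` (Geisser's duality) -/
  finite_torsion : ∀ {X : Scheme.{0}} {d : ℕ}, Horizontal X d → ∀ N : ℕ, 0 < N → {x : T.Top X | N • x = 0}.Finite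

end Pool.Agent.Helper83.TD
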