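import Pool.Agent.Helper83.TD.Key

/-!
# From the key theorem to the finiteness of `H²ᵈ(X_et, ℤ(d))`
-/

set_option autoImplicit false

open CategoryTheory CategoryTheory.Limits AlgebraicGeometry Opposite

namespace Pool.Agent.Helper83.TD

universe v

section Modules

variable {p : ℕ} [Fact p.Prime]

/-- a nonzero element of `ℤ_p` is a unit times a power of `p` -/
lemma tors_of_smul {A : Type*} [AddCommGroup A] [Module ℤ_[p] A] {x : A} {a : ℤ_[p]} (ha : a ≠ 0)
    (h : IsOfFinAddOrder (a • x)) : IsOfFinAddOrder x := by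
  obtain ⟨n, hn, h⟩ := tors_iff.1 h
  have h1 : ((p : ℤ_[p]) ^ a.valuation) • (n • x) = 0 := by
    rw [← (PadicInt.unitCoeff ha).isUnit.smul_eq_zero, ← mul_smul, ← PadicInt.unitCoeff_spec ha, smul_comm]
    exact h
  rw [← Nat.cast_pow, Nat.cast_smul_eq_nsmul, ← mul_smul] at h1
  exact tors_iff.2 ⟨_, Nat.mul_pos (pow_pos (Nat.Prime.pos Fact.out) _) hn, h1⟩

lemma mem_torsion {A : Type*} [AddCommGroup A] [Module ℤ_[p] A] {x : A} :
    x ∈ Submodule.torsion ℤ_[p] A ↔ IsOfFinAddOrder x := by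
  rw [Submodule.mem_torsion_iff]
  constructor
  · rintro ⟨a, ha⟩
    refine tors_of_smul (nonZeroDivisors.coe_ne_zero a) ?_
    rw [show (a : ℤ_[p]) • x = 0 from ha]
    exact tors_iff.2 ⟨1, one_pos, smul_zero 1⟩
  · intro h
    obtain ⟨n, hn, h⟩ := tors_iff.1 h
    refine ⟨⟨(n : ℤ_[p]), mem_nonZeroDivisors_of_ne_zero (Nat.cast_ne_zero.2 hn.ne')⟩, ?_⟩
    change (n : ℤ_[p]) • x = 0
    rw [Nat.cast_smul_eq_nsmul, h]

/-- finitely many of the maps suffice -/
lemma exists_finite {ι : Type*} {M : Type*} [AddCommGroup M] [Module ℤ_[p] M] [Module.Finite ℤ_[p] M]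
    {A : ι → Type*} [∀ i, AddCommGroup (A i)] [∀ i, Module ℤ_[p] (A i)] (φ : ∀ i, M →ₗ[ℤ_[p]] A i)
    (h : ∀ x, (∀ i, IsOfFinAddOrder (φ i x)) → IsOfFinAddOrder x) :
    ∃ s : Finset ι, ∀ x, (∀ i ∈ s, IsOfFinAddOrder (φ i x)) → IsOfFinAddOrder x := by
  classical
  let N : Finset ι → Submodule ℤ_[p] M := fun s => ⨅ i ∈ s, (Submodule.torsion ℤ_[p] (A i)).comap (φ i)
  have hN : ∀ s x, x ∈ N s ↔ ∀ i ∈ s, IsOfFinAddOrder (φ i x) := by
    intro s x
    simp only [N, Submodule.mem_iInf, Submodule.mem_comap, mem_torsion]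
  let s := Function.argmin (fun s => Module.finrank ℤ_[p] (N s))
  refine ⟨s, fun x hx => h x fun i => ?_⟩
  have hle : N (insert i s) ≤ N s := by
    intro y hy
    rw [hN] at hy ⊢
    exact fun j hj => hy j (Finset.mem_insert_of_mem hj)
  let P := (N (insert i s)).submoduleOf (N s)
  have h1 : Module.finrank ℤ_[p] P = Module.finrank ℤ_[p] (N (insert i s)) :=
    (Submodule.submoduleOfEquivOfLe hle).finrank_eq
  have h2 : Module.finrank ℤ_[p] (N s ⧸ P) = 0 := by
    have h3 := P.finrank_quotient_add_finrank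
    have h4 : Module.finrank ℤ_[p] (N s) ≤ Module.finrank ℤ_[p] (N (insert i s)) :=
      Function.argmin_le (fun s => Module.finrank ℤ_[p] (N s)) (insert i s)
    omega
  rw [Module.finrank_eq_zero_iff_isTorsion] at h2
  have hxs : x ∈ N s := (hN s x).2 hx
  obtain ⟨a, ha⟩ := @h2 (Submodule.Quotient.mk ⟨x, hxs⟩)
  have h5 : (a : ℤ_[p]) • (⟨x, hxs⟩ : N s) ∈ P := by
    rw [← Submodule.Quotient.mk_eq_zero]
    exact ha
  have h6 : (a : ℤ_[p]) • x ∈ N (insert i s) := h5
  rw [hN] at h6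
  have h7 := h6 i (Finset.mem_insert_self i s)
  rw [map_smul] at h7
  exact tors_of_smul (nonZeroDivisors.coe_ne_zero a) h7

end Modules

section Groups

/-- a torsion group `A` with finite `p`-primary parts and bounded quotients `A / N` is finite -/
lemma finite_of_bounded {A : Type*} [AddCommGroup A] (htors : ∀ x : A, IsOfFinAddOrder x)
    (hN : ∀ N : ℕ, 0 < N → {x : A | N • x = 0}.Finite)
    (hp : ∀ p : ℕ, p.Prime → {x : A | ∃ r : ℕ, p ^ r • x = 0}.Finite) (B : ℕ)
    (hB : ∀ N : ℕ, 0 < N → ((nsmulAddMonoidHom N : A →+ A).range.index ≠ 0 ∧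
      (nsmulAddMonoidHom N : A →+ A).range.index ≤ B)) : Finite A := by
  classical
  -- `N₀` with the maximal index
  obtain ⟨N₀, hN₀, hmax⟩ : ∃ N₀ : ℕ, 0 < N₀ ∧ ∀ N : ℕ, 0 < N →
      (nsmulAddMonoidHom N : A →+ A).range.index ≤ (nsmulAddMonoidHom N₀ : A →+ A).range.index := by
    let f : {N : ℕ // 0 < N} → ℕ := fun N => B - (nsmulAddMonoidHom (N : ℕ) : A →+ A).range.index
    have : Nonempty {N : ℕ // 0 < N} := ⟨⟨1, one_pos⟩⟩
    refine ⟨(Function.argmin f : {N : ℕ // 0 < N}), (Function.argmin f).2, fun N hN' => ?_⟩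
    have h1 := Function.argmin_le f ⟨N, hN'⟩
    have h2 := (hB N hN').2
    have h3 := (hB _ (Function.argmin f).2).2
    simp only [f] at h1 h3 ⊢
    omega
  have hdiv : ∀ m : ℕ, 0 < m → ∀ x : A, ∃ z : A, N₀ • x = m • (N₀ • z) := by
    intro m hm x
    have hle : (nsmulAddMonoidHom (N₀ * m) : A →+ A).range ≤ (nsmulAddMonoidHom N₀ : A →+ A).range := by
      rintro _ ⟨y, rfl⟩
      exact ⟨m • y, by simp [mul_smul]⟩
    have hpos : 0 < N₀ * m := Nat.mul_pos hN₀ hm
    have h1 := AddSubgroup.relIndex_mul_index hle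
    have h2 := hmax _ hpos
    have h3 := (hB _ hpos).1
    have h4 := (hB _ hN₀).1
    have h5 : (nsmulAddMonoidHom (N₀ * m) : A →+ A).range.relIndex (nsmulAddMonoidHom N₀ : A →+ A).range = 1 := by
      have h6 : (nsmulAddMonoidHom (N₀ * m) : A →+ A).range.relIndex (nsmulAddMonoidHom N₀ : A →+ A).range ≠ 0 := by
        intro h0
        rw [h0, zero_mul] at h1
        exact h3 h1.symm
      by_contra hne
      have h7 : 2 ≤ (nsmulAddMonoidHom (N₀ * m) : A →+ A).range.relIndex
          (nsmulAddMonoidHom N₀ : A →+ A).range := by omega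
      have h8 := Nat.mul_le_mul_right ((nsmulAddMonoidHom N₀ : A →+ A).range.index) h7
      omega
    rw [AddSubgroup.relIndex_eq_one] at h5
    obtain ⟨z, hz⟩ := h5 (show N₀ • x ∈ (nsmulAddMonoidHom N₀ : A →+ A).range from ⟨x, rfl⟩)
    refine ⟨z, ?_⟩
    rw [← mul_smul, mul_comm m]
    exact hz.symm
  -- no `p`-torsion in `N₀ A`
  have hfree : ∀ p : ℕ, p.Prime → ∀ x : A, p • (N₀ • x) = 0 → N₀ • x = 0 := by
    intro p hp' x hx
    let D : Set A := {y : A | (∃ z, y = N₀ • z) ∧ ∃ r : ℕ, p ^ r • y = 0}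
    have hD : D.Finite := (hp p hp').subset fun y hy => hy.2
    have hfin : Finite D := hD.to_subtype
    let μ : D → D := fun y => ⟨p • (y : A), by
      obtain ⟨y, ⟨z, hz⟩, r, hr⟩ := y
      refine ⟨⟨p • z, ?_⟩, r, ?_⟩
      · change p • y = _
        rw [hz, smul_comm]
      · change p ^ r • p • y = 0
        rw [smul_comm, hr, smul_zero]⟩
    have hsurj : Function.Surjective μ := by
      rintro ⟨y, ⟨z, hz⟩, r, hr⟩
      obtain ⟨w, hw⟩ := hdiv p hp'.pos z
      refine ⟨⟨N₀ • w, ⟨w, rfl⟩, r + 1, ?_⟩, ?_⟩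
      · rw [pow_succ, mul_smul, ← hw, ← hz, hr]
      · apply Subtype.ext
        change p • (N₀ • w) = y
        rw [← hw, hz]
    have hinj := Finite.injective_iff_surjective.2 hsurj
    have h0 : (⟨N₀ • x, ⟨x, rfl⟩, 1, by simpa using hx⟩ : D) = ⟨0, ⟨0, by simp⟩, 0, by simp⟩ := by
      apply hinj
      apply Subtype.ext
      change p • (N₀ • x) = p • (0 : A)
      rw [hx, smul_zero]
    exact congrArg Subtype.val h0
  have hzero : ∀ n : ℕ, 0 < n → ∀ x : A, n • (N₀ • x) = 0 → N₀ • x = 0 := by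
    intro n
    induction n using Nat.strong_induction_on with
    | _ n ih =>
      intro hn x hx
      by_cases h1 : n = 1
      · simpa [h1] using hx
      · obtain ⟨p, hp', m, rfl⟩ := Nat.exists_prime_and_dvd h1
        have hm : 0 < m := Nat.pos_of_ne_zero (by rintro rfl; simp at hn)
        have h2 : m • (N₀ • x) = 0 := by
          rw [smul_comm m]
          apply hfree p hp'
          rw [smul_comm N₀ m, ← mul_smul]
          exact hx
        exact ih m (by nlinarith [hp'.two_le]) hm x h2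
  have hall : (Set.univ : Set A) ⊆ {x : A | N₀ • x = 0} := by
    intro x _
    obtain ⟨n, hn, h⟩ := tors_iff.1 (htors (N₀ • x))
    exact hzero n hn x h
  exact Set.finite_univ_iff.1 ((hN N₀ hN₀).subset hall)

end Groups

variable {T : Theory.{v}}

/-- the `p`-primary part of `Top X` is finite -/
lemma primary_finite (hT : T.Standard) (hG : Geometry) {X : Scheme.{0}} {d : ℕ} (hd : 2 ≤ d)
    (hX : Horizontal X d) {p : ℕ} (hp : p.Prime) : {x : T.Top X | ∃ r : ℕ, p ^ r • x = 0}.Finite := by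
  have : Fact p.Prime := ⟨hp⟩
  have hdet := detected (hT.cohomology p) hG hd hX
  have hfin := ((hT.cohomology p).finite hX).1
  let ι := Σ S : Scheme.{0}, {f : S ⟶ X // Surface S}
  obtain ⟨s, hs⟩ := exists_finite (ι := ι) (A := fun i => (T.H p).at i.1)
    (fun i => (T.H p).res i.2.1) fun x hx => hdet x fun S f hS => hx ⟨S, f, hS⟩
  let e := s.equivFin.symm
  obtain ⟨N, hN, hdual⟩ := hT.duality p (fun k : Fin s.card => (e k).1.1) (fun k => (e k).1.2.1) hX
    (fun k => (e k).1.2.2) (by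
      intro h hh
      refine hs h fun i hi => ?_
      have := hh (e.symm ⟨i, hi⟩)
      rw [Equiv.apply_symm_apply] at this
      exact this)
  have : ∀ k : Fin s.card, Finite (T.Top (e k).1.1) := fun k => hT.surface (e k).1.2.2
  have himg : (Set.range fun y : (∀ k : Fin s.card, T.Top (e k).1.1) =>
      ∑ k, T.push ((e k).1.2.1) (y k)).Finite := Set.finite_range _
  refine (himg.preimage' (f := fun x : T.Top X => N • x) ?_).subset ?_
  · intro b _
    by_cases hb : ∃ x₀ : T.Top X, N • x₀ = b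
    · obtain ⟨x₀, rfl⟩ := hb
      refine ((hT.finite_torsion hX N hN).image fun z => z + x₀).subset ?_
      intro x hx
      refine ⟨x - x₀, ?_, by simp⟩
      change N • (x - x₀) = 0
      rw [smul_sub, show N • x = N • x₀ from hx, sub_self]
    · convert Set.finite_empty
      ext x
      simp only [Set.mem_preimage, Set.mem_singleton_iff, Set.mem_empty_iff_false, iff_false]
      exact fun h => hb ⟨x, h⟩
  · rintro x hx
    obtain ⟨y, hy⟩ := hdual x hx
    exact ⟨y, hy.symm⟩

/-- **The theorem.** -/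
theorem finite_top (hT : T.Standard) (hG : Geometry) {X : Scheme.{0}} {d : ℕ} (hd : 2 ≤ d)
    (hX : Horizontal X d) : Finite (T.Top X) := by
  obtain ⟨B, hB⟩ := hT.bounded hX
  exact finite_of_bounded (hT.torsion hX) (hT.finite_torsion hX)
    (fun p hp => primary_finite hT hG hd hX hp) B hB

end Pool.Agent.Helper83.TD
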