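import Pool.Agent.Helper83.TD.Defs

/-!
# The key theorem: classes in `H²(X_et, ℤ_p)` are detected by surfaces, modulo torsion
-/

set_option autoImplicit false

open CategoryTheory CategoryTheory.Limits AlgebraicGeometry Opposite

namespace Pool.Agent.Helper83.TD

universe v

section Basic

variable {p : ℕ} [Fact p.Prime]

/-- the pull-back as a linear map -/
noncomputable abbrev Psh.res (F : Psh.{v} p) {X Y : Scheme.{0}} (f : X ⟶ Y) : F.at Y →ₗ[ℤ_[p]] F.at X :=
  (F.pull f).hom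

/-- the map `F(X) ⟶ G(X)` of a natural transformation as a linear map -/
noncomputable abbrev Psh.app {F G : Psh.{v} p} (η : F ⟶ G) (X : Scheme.{0}) : F.at X →ₗ[ℤ_[p]] G.at X :=
  (Psh.map η X).hom

lemma pull_comp (F : Psh.{v} p) {X Y Z : Scheme.{0}} (f : X ⟶ Y) (g : Y ⟶ Z) (x : F.at Z) :
    F.res (f ≫ g) x = F.res f (F.res g x) := by
  simp [Psh.res, Psh.pull]

lemma pull_id (F : Psh.{v} p) {X : Scheme.{0}} (x : F.at X) : F.res (𝟙 X) x = x := by
  simp [Psh.res, Psh.pull]

lemma app_pull {F G : Psh.{v} p} (η : F ⟶ G) {X Y : Scheme.{0}} (f : X ⟶ Y) (x : F.at Y) :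
    Psh.app η X (F.res f x) = G.res f (Psh.app η Y x) := by
  have := η.naturality f.op
  exact congrArg (fun m => m.hom x) this

lemma iso_bijective {A B : ModuleCat.{v} ℤ_[p]} (f : A ⟶ B) [IsIso f] : Function.Bijective f.hom :=
  (ConcreteCategory.isIso_iff_bijective f).1 inferInstance

lemma tors_iff {A : Type*} [AddCommGroup A] {x : A} : IsOfFinAddOrder x ↔ ∃ n : ℕ, 0 < n ∧ n • x = 0 :=
  isOfFinAddOrder_iff_nsmul_eq_zero

lemma tors_of_nsmul {A : Type*} [AddCommGroup A] {x : A} {n : ℕ} (hn : 0 < n)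
    (h : IsOfFinAddOrder (n • x)) : IsOfFinAddOrder x := by
  obtain ⟨m, hm, h⟩ := tors_iff.1 h
  exact tors_iff.2 ⟨m * n, Nat.mul_pos hm hn, by rw [mul_smul, h]⟩

lemma tors_map {A B : Type*} [AddCommGroup A] [AddCommGroup B] [Module ℤ_[p] A] [Module ℤ_[p] B]
    (f : A →ₗ[ℤ_[p]] B) {x : A} (h : IsOfFinAddOrder x) : IsOfFinAddOrder (f x) := by
  obtain ⟨m, hm, h⟩ := tors_iff.1 h
  exact tors_iff.2 ⟨m, hm, by rw [← map_nsmul, h, map_zero]⟩

end Basic

variable {T : Theory.{v}}

section Key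

variable {p : ℕ} [Fact p.Prime]

/-- the classes are detected by surfaces -/
def Detected (T : Theory.{v}) (p : ℕ) [Fact p.Prime] (X : Scheme.{0}) : Prop :=
  ∀ h : (T.H p).at X, (∀ (S : Scheme.{0}) (f : S ⟶ X), Surface S → IsOfFinAddOrder ((T.H p).res f h)) →
    IsOfFinAddOrder h

/-- the elements of `L X` have no torsion -/
lemma tors_free (hT : T.Cohomology p) {X : Scheme.{0}} {d : ℕ} (hX : Horizontal X d) {s : (T.L p).at X}
    (h : IsOfFinAddOrder s) : s = 0 := by
  obtain ⟨n, hn, h⟩ := tors_iff.1 h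
  obtain ⟨k, m, hm, rfl⟩ := Nat.exists_eq_pow_mul_and_not_dvd hn.ne' p (Nat.Prime.one_lt Fact.out).ne'
  -- `m` is a unit in `ℤ_p`
  have hu : IsUnit ((m : ℕ) : ℤ_[p]) := by
    rw [PadicInt.isUnit_iff]
    have := (PadicInt.norm_natCast_lt_one_iff (p := p) (n := m)).not.2 hm
    exact le_antisymm (PadicInt.norm_le_one _) (not_lt.1 this)
  have h1 : p ^ k • s = 0 := by
    rw [← hu.smul_eq_zero, Nat.cast_smul_eq_nsmul, ← mul_smul, mul_comm]
    exact h
  clear h hn
  induction k with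
  | zero => simpa using h1
  | succ k ih =>
    apply ih
    apply (hT.reduction hX).1
    rw [← mul_smul, ← pow_succ']
    exact h1

/-- **Step 1.** An element which is detected to be torsion on the surfaces is torsion on `V`. -/
lemma generic (hT : T.Cohomology p) (hG : Geometry) {X V W Y C : Scheme.{0}} {d : ℕ} {v : V ⟶ X} {g : V ⟶ W}
    {f : Y ⟶ X} {a : C ⟶ Y} {q : C ⟶ V} (hF : IsFibration p v g f a q d) (hX : Horizontal X (d + 1))
    (hY : Detected T p Y) (h : (T.H p).at X)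
    (hh : ∀ (S : Scheme.{0}) (f : S ⟶ X), Surface S → IsOfFinAddOrder ((T.H p).res f h)) :
    IsOfFinAddOrder ((T.H p).res v h) := by
  have h1 : IsOfFinAddOrder ((T.edge p g).hom ((T.H p).res v h)) := by
    refine hT.hilbert g hF.elementary hF.rational _ fun E O j t hE hj hO => ?_
    have hbc := congrArg (fun m => m.hom ((T.H p).res v h)) (hT.base_change g t)
    change IsOfFinAddOrder ((T.base p g t).hom ((T.edge p g).hom ((T.H p).res v h)))
    rw [show (T.base p g t).hom ((T.edge p g).hom ((T.H p).res v h)) =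
      (T.edge p (pullback.snd g t)).hom ((T.H p).res (pullback.fst g t) ((T.H p).res v h)) from hbc]
    obtain ⟨S, b, u, hS, hu⟩ := hG.surface v g j t hX hF.elementary hE hj hO
    rw [← pull_comp, ← hu, pull_comp]
    exact tors_map _ (tors_map _ (hh S b hS))
  obtain ⟨N, hN, h2⟩ := tors_iff.1 h1
  rw [← map_nsmul] at h2
  obtain ⟨w, hw⟩ := (hT.relative g _).1 h2
  replace hw : (T.H p).res g w = N • ((T.H p).res v) h := hw
  have h3 : IsOfFinAddOrder w := by
    refine hT.transfer (q ≫ g) hF.rational hF.finite hF.flat hF.surjective w ?_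
    change IsOfFinAddOrder ((T.H p).res (q ≫ g) w)
    rw [pull_comp, hw, ← map_nsmul, ← pull_comp, ← hF.comm, pull_comp]
    refine tors_map _ (hY _ fun S b hS => ?_)
    rw [← pull_comp, map_nsmul]
    exact (hh S _ hS).nsmul
  refine tors_of_nsmul hN ?_
  rw [← hw]
  exact tors_map _ h3

/-- the pull-back `K X ⟶ K E` to a curve is injective (`T.K p X` is `T.K p` of the ring of global functions) -/
lemma injective_K (hT : T.Cohomology p) {X E : Scheme.{0}} {d : ℕ} (hX : Horizontal X d) (e : E ⟶ X)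
    (hE : Curve E) {x y : (T.K p).at X} (h : (T.K p).res e x = (T.K p).res e y) : x = y := by
  obtain ⟨hB, hi⟩ := hT.katz_lang hX
  obtain ⟨-, hs⟩ := iso_bijective ((T.K p).pull X.toSpecΓ)
  obtain ⟨b, rfl⟩ := hs x
  obtain ⟨c, rfl⟩ := hs y
  rw [← pull_comp, ← pull_comp] at h
  rw [(hT.transfer_curve (e ≫ X.toSpecΓ) hB hE).1 h]

/-- the pull-back `K X ⟶ K S` is surjective, if `X` and `S` have the same ring of global functions -/
lemma surjective_K (hT : T.Cohomology p) {X S : Scheme.{0}} {e : ℕ} (hS : Horizontal S e)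
    (f : S ⟶ X) (hf : IsIso f.appTop) (y : (T.K p).at S) : ∃ x, (T.K p).res f x = y := by
  obtain ⟨-, hi⟩ := hT.katz_lang hS
  obtain ⟨-, hs⟩ := iso_bijective ((T.K p).pull S.toSpecΓ)
  obtain ⟨b, rfl⟩ := hs y
  obtain ⟨c, rfl⟩ := (iso_bijective ((T.K p).pull (Spec.map f.appTop))).2 b
  refine ⟨(T.K p).res X.toSpecΓ c, ?_⟩
  rw [← pull_comp, ← pull_comp, Scheme.toSpecΓ_naturality]

/-- **Step 4.** Kerz-Schmidt with the coefficients `ℤ_p`: the elements of `L X` are detected by curves. -/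
lemma detect_L (hT : T.Cohomology p) {X : Scheme.{0}} {d : ℕ} (hX : Horizontal X d) (r : (T.L p).at X)
    (h : ∀ (E : Scheme.{0}) (e : E ⟶ X), Curve E → (T.L p).res e r = 0) : r = 0 := by
  by_contra hr
  have := (hT.finite hX).2
  -- `r = p ^ m • r₁` with `r₁ ∉ p L`
  have key : ∃ (m : ℕ) (r₁ : (T.L p).at X), r = p ^ m • r₁ ∧ ¬ ∃ r₂, p • r₂ = r₁ := by
    by_contra hcon
    push Not at hcon
    have hall : ∀ m : ℕ, ∃ r₁ : (T.L p).at X, r = p ^ m • r₁ := by
      intro m
      induction m with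
      | zero => exact ⟨r, by simp⟩
      | succ m ih =>
        obtain ⟨r₁, h1⟩ := ih
        obtain ⟨r₂, h2⟩ := hcon m r₁ h1
        exact ⟨r₂, by rw [h1, ← h2, pow_succ, mul_smul]⟩
    apply hr
    have hk := Ideal.iInf_pow_smul_eq_bot_of_isLocalRing (R := ℤ_[p]) (M := (T.L p).at X)
      (IsLocalRing.maximalIdeal ℤ_[p]) (by exact Ideal.IsPrime.ne_top inferInstance)
    have : r ∈ (⨅ i : ℕ, IsLocalRing.maximalIdeal ℤ_[p] ^ i • ⊤ : Submodule ℤ_[p] ((T.L p).at X)) := by
      rw [Submodule.mem_iInf]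
      intro i
      obtain ⟨r₁, h1⟩ := hall i
      rw [h1, ← Nat.cast_smul_eq_nsmul ℤ_[p], Nat.cast_pow]
      refine Submodule.smul_mem_smul (Ideal.pow_mem_pow ?_ i) trivial
      rw [PadicInt.maximalIdeal_eq_span_p]
      exact Ideal.mem_span_singleton_self _
    rw [hk] at this
    exact this
  obtain ⟨m, r₁, h1, h2⟩ := key
  have h3 : Psh.app (T.red p) X r₁ ≠ 0 := fun h0 => h2 ((hT.reduction hX).2 r₁ h0)
  obtain ⟨E, e, hE, h4⟩ := hT.ramification hX _ h3
  apply h4
  change (T.L1 p).res e (Psh.app (T.red p) X r₁) = 0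
  rw [← app_pull]
  have h5 : (T.L p).res e r₁ = 0 := by
    refine tors_free hT hE (tors_iff.2 ⟨p ^ m, pow_pos (Nat.Prime.pos Fact.out) m, ?_⟩)
    rw [← map_nsmul, ← h1]
    exact h E e hE
  rw [h5, map_zero]

/-- **Step 3.** If `ι s` is torsion on all surfaces, then a multiple of `s` comes from `K X`. -/
lemma constant (hT : T.Cohomology p) (hG : Geometry) {X : Scheme.{0}} {d : ℕ} (hd : 3 ≤ d) (hX : Horizontal X d)
    (s : (T.L p).at X) (hs : ∀ (S : Scheme.{0}) (f : S ⟶ X), Surface S →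
      IsOfFinAddOrder ((T.H p).res f (Psh.app (T.ι p) X s))) :
    ∃ (M : ℕ) (c : (T.K p).at X), 0 < M ∧ M • s = Psh.app (T.δ p) X c := by
  obtain ⟨F, b, hF⟩ := hG.curve hX
  -- for every curve `E` there is a multiple of `s` which agrees on `E` and `F` with an element of `K X`
  have claim : ∀ (E : Scheme.{0}) (e : E ⟶ X), Curve E → ∃ (M : ℕ) (c : (T.K p).at X), 0 < M ∧
      (T.L p).res e (M • s) = (T.L p).res e (Psh.app (T.δ p) X c) ∧
      (T.L p).res b (M • s) = (T.L p).res b (Psh.app (T.δ p) X c) := by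
    intro E e hE
    obtain ⟨S, E', F', f, a', b', α, β, hS, hE', hF', ha, hb, hiso⟩ := hG.joint e b hd hX hE hF
    obtain ⟨M, hM, h1⟩ := tors_iff.1 (hs S f hS)
    rw [← app_pull, ← map_nsmul, ← map_nsmul] at h1
    obtain ⟨c', hc'⟩ := (hT.supports hS _).1 h1
    obtain ⟨c, rfl⟩ := surjective_K hT hS f hiso c'
    replace hc' : Psh.app (T.δ p) S ((T.K p).res f c) = (T.L p).res f (M • s) := hc'
    rw [app_pull] at hc'
    refine ⟨M, c, hM, ?_, ?_⟩
    · apply (hT.transfer_curve α hE hE').2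
      change (T.L p).res α _ = (T.L p).res α _
      rw [← pull_comp, ← pull_comp, ← ha, pull_comp, pull_comp, hc']
    · apply (hT.transfer_curve β hF hF').2
      change (T.L p).res β _ = (T.L p).res β _
      rw [← pull_comp, ← pull_comp, ← hb, pull_comp, pull_comp, hc']
  obtain ⟨M, c, hM, h1, -⟩ := claim F b hF
  refine ⟨M, c, hM, ?_⟩
  rw [← sub_eq_zero]
  refine detect_L hT hX _ fun E e hE => ?_
  obtain ⟨M', c', hM', h2, h3⟩ := claim E e hE
  -- `M' c = M c'`
  have h4 : M' • c = M • c' := by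
    refine injective_K hT hX b hF (hT.class_number hF ?_)
    change Psh.app (T.δ p) F _ = Psh.app (T.δ p) F _
    rw [app_pull, app_pull, map_nsmul, map_nsmul, map_nsmul, map_nsmul, ← h1, ← h3, map_nsmul, map_nsmul,
      smul_comm]
  refine tors_free hT hE (tors_iff.2 ⟨M', hM', ?_⟩)
  have h5 : (T.L p).res e (M' • Psh.app (T.δ p) X c) = M • (T.L p).res e (M' • s) := by
    rw [h2, ← map_nsmul, ← map_nsmul, h4, map_nsmul]
  rw [map_sub, smul_sub, ← map_nsmul, ← map_nsmul, h5, smul_comm M' M s, map_nsmul, sub_self]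

/-- **The key theorem.** -/
theorem detected (hT : T.Cohomology p) (hG : Geometry) : ∀ {d : ℕ}, 2 ≤ d → ∀ {X : Scheme.{0}}, Horizontal X d →
    Detected T p X := by
  intro d hd
  induction d, hd using Nat.le_induction with
  | base =>
    intro X hX h hh
    simpa [pull_id] using hh X (𝟙 X) hX
  | succ d hd ih =>
    intro X hX h hh
    obtain ⟨V, W, Y, C, v, g, f, a, q, hF⟩ := hG.fibration p Fact.out hd hX
    have h1 := generic hT hG hF hX (ih hF.horizontal) h hh
    obtain ⟨N, hN, h2⟩ := tors_iff.1 h1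
    rw [← map_nsmul] at h2
    obtain ⟨s, hs⟩ := hT.purity v hX hF.open_immersion hF.nonempty _ h2
    replace hs : Psh.app (T.ι p) X s = N • h := hs
    have h3 : ∀ (S : Scheme.{0}) (f : S ⟶ X), Surface S →
        IsOfFinAddOrder ((T.H p).res f (Psh.app (T.ι p) X s)) := by
      intro S f hS
      rw [hs, map_nsmul]
      exact (hh S f hS).nsmul
    obtain ⟨M, c, hM, h4⟩ := constant hT hG (by omega) hX s h3
    refine tors_of_nsmul hN (tors_iff.2 ⟨M, hM, ?_⟩)
    rw [← hs, ← map_nsmul, h4]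
    exact (hT.supports hX _).2 ⟨c, rfl⟩

end Key

end Pool.Agent.Helper83.TD
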